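import Mathlib
import Pool.Agent.Results.MP_b5758b_co.NotUniqueAtSeven

/-!
# Nonnegative pair sums: all extremal vectors

The case `k = 2` of the problem on nonnegative `k`-sums is solved completely.
`f 2 = 6`; for every `n ≥ 6` the uniqueness statement of the question holds for the pair `(2, n)`
if and only if `n ≠ 7`; and for every `n ≥ 6` all (also unsorted) vectors with exactly `n - 1`
nonnegative pair sums are described: the nonnegative pairs are the pairs through one coordinate, or
`n = 7` and they are the six pairs inside a set of four coordinates.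
-/

set_option autoImplicit false

namespace Pool.Agent.Results.MP_b5758b_co.PairsClassified

open Finset
open Pool.Agent.Results.MP_b5758b_co.NotUniqueAtSeven

/-- The uniqueness statement of the question for the pair `(k, n)`: every nonincreasing vector `x`
of length `n` with nonnegative sum and exactly `(n-1).choose (k-1)` nonnegative `k`-sums satisfies
`x_1 + x_{n-k+2} + ... + x_n ≥ 0` (in Lean the coordinates are numbered `0, ..., n-1`, so the last
`k - 1` coordinates are those `i` with `n ≤ i + (k - 1)`). -/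
def Uniq (k n : ℕ) : Prop :=
  ∀ (hn : 0 < n) (x : Fin n → ℝ), 0 ≤ ∑ i, x i → Antitone x → s k x = (n - 1).choose (k - 1) →
    0 ≤ x ⟨0, hn⟩ + ∑ i ∈ univ.filter (fun i : Fin n => n ≤ i.val + (k - 1)), x i

/-- extension by zero -/
noncomputable def ext {n : ℕ} (x : Fin n → ℝ) (i : ℕ) : ℝ := if h : i < n then x ⟨i, h⟩ else 0

theorem ext_eq {n : ℕ} (x : Fin n → ℝ) {i : ℕ} (h : i < n) : ext x i = x ⟨i, h⟩ := by
  simp [ext, h]

theorem ext_anti {n : ℕ} {x : Fin n → ℝ} (hx : Antitone x) {i j : ℕ} (hij : i ≤ j) (hj : j < n) :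
    ext x j ≤ ext x i := by
  rw [ext_eq x hj, ext_eq x (lt_of_le_of_lt hij hj)]
  exact hx (by simpa using hij)

theorem sum_ext {n : ℕ} (x : Fin n → ℝ) : ∑ i ∈ range n, ext x i = ∑ i, x i := by
  rw [Finset.sum_range]
  exact Finset.sum_congr rfl (fun i _ => by rw [ext_eq x i.isLt])

/-- counting pairs by an injection from `range n` -/
theorem count_ge {n : ℕ} (x : Fin n → ℝ) (h : ℕ → ℕ × ℕ)
    (hinj : ∀ i < n, ∀ j < n, h i = h j → i = j)
    (hp : ∀ i < n, (h i).1 < (h i).2 ∧ (h i).2 < n ∧ 0 ≤ ext x (h i).1 + ext x (h i).2) :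
    n ≤ s 2 x := by
  classical
  unfold s
  have h1 : ∀ i : Fin n, (h i).1 < n := fun i => lt_trans (hp i i.isLt).1 (hp i i.isLt).2.1
  let g : Fin n → Finset (Fin n) := fun i => {⟨(h i).1, h1 i⟩, ⟨(h i).2, (hp i i.isLt).2.1⟩}
  have hg : ∀ i ∈ (univ : Finset (Fin n)), g i ∈
      ((univ : Finset (Fin n)).powersetCard 2).filter (fun S => 0 ≤ ∑ i ∈ S, x i) := by
    intro i _
    have hne : (⟨(h i).1, h1 i⟩ : Fin n) ≠ ⟨(h i).2, (hp i i.isLt).2.1⟩ := by
      intro e
      have := (hp i i.isLt).1
      simp only [Fin.mk.injEq] at e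
      omega
    simp only [Finset.mem_filter, Finset.mem_powersetCard, g]
    refine ⟨⟨Finset.subset_univ _, Finset.card_pair hne⟩, ?_⟩
    rw [Finset.sum_pair hne]
    have := (hp i i.isLt).2.2
    rwa [ext_eq x (h1 i), ext_eq x (hp i i.isLt).2.1] at this
  have hgi : Set.InjOn g ((univ : Finset (Fin n)) : Set (Fin n)) := by
    intro i _ j _ hij
    have hi := (hp i i.isLt).1
    have hj := (hp j j.isLt).1
    have e : h i = h j := by
      have m1 : (⟨(h i).1, h1 i⟩ : Fin n) ∈ g j := by rw [← hij]; simp [g]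
      have m2 : (⟨(h i).2, (hp i i.isLt).2.1⟩ : Fin n) ∈ g j := by rw [← hij]; simp [g]
      simp only [g, Finset.mem_insert, Finset.mem_singleton, Fin.mk.injEq] at m1 m2
      apply Prod.ext <;> omega
    exact Fin.ext (hinj i i.isLt j j.isLt e)
  have := Finset.card_le_card_of_injOn g hg hgi
  simpa using this

/-- The core estimate for nonincreasing vectors. -/
theorem core {n : ℕ} (hn : 6 ≤ n) (x : Fin n → ℝ) (hs : 0 ≤ ∑ i, x i) (hx : Antitone x)
    (hneg : ext x 0 + ext x (n - 1) < 0) :
    n ≤ s 2 x ∨ (n = 7 ∧ 0 < ext x 3) := by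
  classical
  set y := ext x with hy
  have hsum : 0 ≤ ∑ i ∈ range n, y i := by rw [hy, sum_ext]; exact hs
  have anti : ∀ {i j : ℕ}, i ≤ j → j < n → y j ≤ y i := fun hij hj => ext_anti hx hij hj
  -- the first coordinate is nonnegative
  have h0 : 0 ≤ y 0 := by
    by_contra hc
    push Not at hc
    have : ∑ i ∈ range n, y i < 0 := by
      apply Finset.sum_neg
      · intro i hi
        exact lt_of_le_of_lt (anti (Nat.zero_le i) (Finset.mem_range.mp hi)) hc
      · exact ⟨0, Finset.mem_range.mpr (by omega)⟩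
    linarith
  have hex : ∃ m, y 0 + y m < 0 := ⟨n - 1, hneg⟩
  obtain ⟨m, hm, hmin⟩ : ∃ m, y 0 + y m < 0 ∧ ∀ j < m, ¬ (y 0 + y j < 0) :=
    ⟨Nat.find hex, Nat.find_spec hex, fun j hj => Nat.find_min hex hj⟩
  have hmn : m ≤ n - 1 := by
    by_contra hc
    exact hmin (n - 1) (by omega) hneg
  have hm1 : 1 ≤ m := by
    rcases Nat.eq_zero_or_pos m with h | h
    · subst h; exfalso; linarith
    · exact h
  have hge : ∀ j < m, 0 ≤ y 0 + y j := fun j hj => not_lt.mp (hmin j hj)
  obtain ⟨b, hb⟩ : ∃ b, n = m + b := ⟨n - m, by omega⟩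
  have hb1 : 1 ≤ b := by omega
  -- the last block
  have hlast : ∑ i ∈ Ico m n, y i < -((b : ℝ) * y 0) := by
    have h1 : ∑ i ∈ Ico m n, y i < ∑ i ∈ Ico m n, (-y 0) := by
      apply Finset.sum_lt_sum_of_nonempty
      · exact ⟨m, Finset.mem_Ico.mpr ⟨le_rfl, by omega⟩⟩
      · intro i hi
        rw [Finset.mem_Ico] at hi
        have := anti hi.1 hi.2
        linarith
    rw [Finset.sum_const, Nat.card_Ico, nsmul_eq_mul] at h1
    have h2 : ((n - m : ℕ) : ℝ) = b := by congr 1; omega
    rw [h2] at h1
    linarith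
  have hpre : ∀ c ≤ m, ∑ i ∈ range c, y i ≤ (c : ℝ) * y 0 := by
    intro c hc
    have h1 : ∑ i ∈ range c, y i ≤ ∑ i ∈ range c, y 0 := by
      apply Finset.sum_le_sum
      intro i hi
      rw [Finset.mem_range] at hi
      exact anti (Nat.zero_le i) (by omega)
    rw [Finset.sum_const, Finset.card_range, nsmul_eq_mul] at h1
    exact h1
  have hsplit : ∑ i ∈ range m, y i + ∑ i ∈ Ico m n, y i = ∑ i ∈ range n, y i :=
    Finset.sum_range_add_sum_Ico _ (by omega)
  have hbm : b < m := by
    by_contra hc
    push Not at hc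
    have h1 := hpre m le_rfl
    have h2 : (m : ℝ) * y 0 ≤ (b : ℝ) * y 0 :=
      mul_le_mul_of_nonneg_right (by exact_mod_cast hc) h0
    linarith
  have hmid : 0 < ∑ i ∈ Ico b m, y i := by
    have h1 := hpre b hbm.le
    have h2 : ∑ i ∈ range b, y i + ∑ i ∈ Ico b m, y i = ∑ i ∈ range m, y i :=
      Finset.sum_range_add_sum_Ico _ hbm.le
    linarith
  by_cases hone : m = b + 1
  · -- `n = 2 b + 1`
    have hyb : 0 < y b := by
      rw [hone] at hmid
      simpa using hmid
    have hall : ∀ i j, i ≤ b → j ≤ b → 0 ≤ y i + y j := by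
      intro i j hi hj
      have h1 := anti hi (by omega)
      have h2 := anti hj (by omega)
      linarith
    by_cases hb3 : b = 3
    · right
      subst hb3
      exact ⟨by omega, hyb⟩
    · left
      have hb4 : 4 ≤ b := by omega
      refine count_ge x (fun k => if k < b then (0, k + 1) else if k < 2 * b - 1 then (1, k - b + 2)
        else if k = 2 * b - 1 then (2, 3) else (2, 4)) ?_ ?_
      · intro i hi j hj hij
        split_ifs at hij <;> simp only [Prod.mk.injEq] at hij <;> omega
      · intro i hi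
        split_ifs with h1 h2 h3
        · exact ⟨by omega, by simp only; omega, hall _ _ (by omega) (by omega)⟩
        · exact ⟨by simp only; omega, by simp only; omega, hall _ _ (by omega) (by simp only; omega)⟩
        · exact ⟨by simp only; omega, by simp only; omega, hall _ _ (by omega) (by omega)⟩
        · exact ⟨by simp only; omega, by simp only; omega, hall _ _ (by omega) (by omega)⟩
  · left
    have hb2m : b + 2 ≤ m := by omega
    have hpair : 0 ≤ y b + y (b + 1) := by
      by_contra hc
      push Not at hc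
      have h1 : ∑ i ∈ Ico b m, y i = y b + y (b + 1) + ∑ i ∈ Ico (b + 2) m, y i := by
        rw [Finset.sum_eq_sum_Ico_succ_bot (by omega), Finset.sum_eq_sum_Ico_succ_bot (by omega)]
        ring
      have h2 : ∑ i ∈ Ico (b + 2) m, y i ≤ 0 := by
        apply Finset.sum_nonpos
        intro i hi
        rw [Finset.mem_Ico] at hi
        have h3 := anti (show b + 1 ≤ i by omega) (by omega)
        have h4 := anti (show b ≤ b + 1 by omega) (by omega)
        linarith
      linarith
    have hall : ∀ i j, i ≤ b → j ≤ b + 1 → 0 ≤ y i + y j := by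
      intro i j hi hj
      have h1 := anti hi (by omega)
      have h2 := anti hj (by omega)
      linarith
    by_cases hb1' : b = 1
    · subst hb1'
      have h13 : 0 ≤ y 1 + y 3 := by
        by_contra hc
        push Not at hc
        have h1 : ∑ i ∈ Ico 1 m, y i = y 1 + y 2 + y 3 + y 4 + ∑ i ∈ Ico 5 m, y i := by
          rw [Finset.sum_eq_sum_Ico_succ_bot (by omega), Finset.sum_eq_sum_Ico_succ_bot (by omega),
            Finset.sum_eq_sum_Ico_succ_bot (by omega), Finset.sum_eq_sum_Ico_succ_bot (by omega)]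
          ring
        have a13 := anti (show 1 ≤ 3 by omega) (by omega)
        have h2 : ∑ i ∈ Ico 5 m, y i ≤ 0 := by
          apply Finset.sum_nonpos
          intro i hi
          rw [Finset.mem_Ico] at hi
          have h3 := anti (show 3 ≤ i by omega) (by omega)
          linarith
        have a12 := anti (show 1 ≤ 2 by omega) (by omega)
        have a34 := anti (show 3 ≤ 4 by omega) (by omega)
        linarith
      refine count_ge x (fun k => if k < n - 2 then (0, k + 1) else if k = n - 2 then (1, 2)
        else (1, 3)) ?_ ?_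
      · intro i hi j hj hij
        split_ifs at hij <;> simp only [Prod.mk.injEq] at hij <;> omega
      · intro i hi
        split_ifs with h1 h2
        · exact ⟨by simp only; omega, by simp only; omega, hge _ (by omega)⟩
        · exact ⟨by simp only; omega, by simp only; omega, hpair⟩
        · exact ⟨by simp only; omega, by simp only; omega, h13⟩
    · have hb2 : 2 ≤ b := by omega
      refine count_ge x (fun k => if k < m - 1 then (0, k + 1) else if k < n - 1
        then (1, k - (m - 1) + 2) else (2, 3)) ?_ ?_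
      · intro i hi j hj hij
        split_ifs at hij <;> simp only [Prod.mk.injEq] at hij <;> omega
      · intro i hi
        split_ifs with h1 h2
        · exact ⟨by simp only; omega, by simp only; omega, hge _ (by omega)⟩
        · exact ⟨by simp only; omega, by simp only; omega,
            hall _ _ (by omega) (by simp only; omega)⟩
        · exact ⟨by simp only; omega, by simp only; omega, hall _ _ (by omega) (by omega)⟩

/-- a family of `s 2 x` nonnegative pairs consists of all nonnegative pairs -/
theorem eq_of_card {n : ℕ} (x : Fin n → ℝ) (E : Finset (Finset (Fin n)))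
    (hE : ∀ S ∈ E, S.card = 2 ∧ 0 ≤ ∑ i ∈ S, x i) (hc : s 2 x = E.card) :
    ∀ S : Finset (Fin n), S.card = 2 → (0 ≤ ∑ i ∈ S, x i ↔ S ∈ E) := by
  classical
  have hsub : E ⊆ ((univ : Finset (Fin n)).powersetCard 2).filter (fun S => 0 ≤ ∑ i ∈ S, x i) := by
    intro S hS
    simp only [Finset.mem_filter, Finset.mem_powersetCard]
    exact ⟨⟨Finset.subset_univ _, (hE S hS).1⟩, (hE S hS).2⟩
  have heq := Finset.eq_of_subset_of_card_le hsub (by
    have : s 2 x = (((univ : Finset (Fin n)).powersetCard 2).filter
      (fun S => 0 ≤ ∑ i ∈ S, x i)).card := rfl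
    rw [← this, hc])
  intro S hS
  constructor
  · intro h
    rw [heq]
    simp only [Finset.mem_filter, Finset.mem_powersetCard]
    exact ⟨⟨Finset.subset_univ _, hS⟩, h⟩
  · intro h
    exact (hE S h).2

/-- the number of nonnegative sums does not depend on the order of the coordinates -/
theorem s_perm {n : ℕ} (k : ℕ) (x : Fin n → ℝ) (σ : Equiv.Perm (Fin n)) : s k (x ∘ σ) = s k x := by
  classical
  unfold s
  apply Finset.card_bij (fun S _ => S.map σ.toEmbedding)
  · intro S hS
    simp only [Finset.mem_filter, Finset.mem_powersetCard] at hS ⊢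
    refine ⟨⟨Finset.subset_univ _, by rw [Finset.card_map]; exact hS.1.2⟩, ?_⟩
    rw [Finset.sum_map]
    exact hS.2
  · intro S _ T _ h
    exact Finset.map_injective _ h
  · intro S hS
    simp only [Finset.mem_filter, Finset.mem_powersetCard] at hS
    refine ⟨S.map σ.symm.toEmbedding, ?_, ?_⟩
    · simp only [Finset.mem_filter, Finset.mem_powersetCard]
      refine ⟨⟨Finset.subset_univ _, by rw [Finset.card_map]; exact hS.1.2⟩, ?_⟩
      rw [Finset.sum_map]
      simpa using hS.2
    · rw [Finset.map_map]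
      ext a
      simp

theorem last_sum {n : ℕ} (hn : 2 ≤ n) (x : Fin n → ℝ) :
    ∑ i ∈ univ.filter (fun i : Fin n => n ≤ i.val + (2 - 1)), x i = ext x (n - 1) := by
  have : univ.filter (fun i : Fin n => n ≤ i.val + (2 - 1)) = {⟨n - 1, by omega⟩} := by
    ext i
    simp only [Finset.mem_filter, Finset.mem_univ, true_and, Finset.mem_singleton, Fin.ext_iff]
    have := i.isLt
    omega
  rw [this, Finset.sum_singleton, ext_eq x (show n - 1 < n by omega)]

/-- the vector `(2,2,2,-3,-3)` over the integers -/
def y5 : Fin 5 → ℤ := ![2, 2, 2, -3, -3]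

theorem s_y5 : s 2 (fun i => (y5 i : ℝ)) = 3 := by
  unfold s
  have h : ((univ : Finset (Fin 5)).powersetCard 2).filter
      (fun S => 0 ≤ ∑ i ∈ S, (fun i => (y5 i : ℝ)) i) =
      ((univ : Finset (Fin 5)).powersetCard 2).filter (fun S => 0 ≤ ∑ i ∈ S, y5 i) := by
    apply Finset.filter_congr
    intro S _
    simp only
    rw [← Int.cast_sum]
    exact_mod_cast Iff.rfl
  rw [h]
  decide +kernel

theorem f_two : f 2 = 6 := by
  apply le_antisymm f_two_le
  by_contra hc
  push Not at hc
  have hw : Works 2 (f 2) := Nat.sInf_mem (s := {m : ℕ | Works 2 m}) ⟨6, works_two_six⟩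
  have := hw 5 (by omega) (fun i => (y5 i : ℝ)) (by
    rw [← Int.cast_sum]
    have : (0 : ℤ) ≤ ∑ i, y5 i := by decide
    exact_mod_cast this)
  rw [s_y5] at this
  norm_num at this

theorem not_uniq_seven : ¬ Uniq 2 7 := by
  intro h
  have h1 := h (by norm_num) (fun i => (yz i : ℝ)) (by
    rw [← Int.cast_sum]
    have : (0 : ℤ) ≤ ∑ i, yz i := by decide
    exact_mod_cast this) (by
    have : ∀ i j : Fin 7, i ≤ j → yz j ≤ yz i := by decide
    intro i j hij
    simp only
    exact_mod_cast this i j hij) (by rw [s_yz]; decide)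
  rw [← Int.cast_sum, ← Int.cast_add] at h1
  have h2 : yz ⟨0, by norm_num⟩ + ∑ i ∈ univ.filter (fun i : Fin 7 => 7 ≤ i.val + (2 - 1)), yz i < 0 := by
    decide
  have h3 : ((yz ⟨0, by norm_num⟩ + ∑ i ∈ univ.filter (fun i : Fin 7 => 7 ≤ i.val + (2 - 1)), yz i : ℤ) : ℝ)
      < 0 := by exact_mod_cast h2
  linarith

theorem uniq_of_ne {n : ℕ} (hn : 6 ≤ n) (h7 : n ≠ 7) : Uniq 2 n := by
  intro hn0 x hs hx hc
  by_contra hneg
  push Not at hneg
  rw [last_sum (by omega) x, ← ext_eq x hn0] at hneg
  rcases core hn x hs hx hneg with h | h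
  · rw [hc] at h
    simp at h
    omega
  · exact h7 h.1

/-- All vectors with exactly `n - 1` nonnegative pair sums. -/
theorem classify {n : ℕ} (hn : 6 ≤ n) (x : Fin n → ℝ) (hs : 0 ≤ ∑ i, x i) (hc : s 2 x = n - 1) :
    (∃ p : Fin n, ∀ S : Finset (Fin n), S.card = 2 → (0 ≤ ∑ i ∈ S, x i ↔ p ∈ S)) ∨
    (n = 7 ∧ ∃ Q : Finset (Fin n), Q.card = 4 ∧
      ∀ S : Finset (Fin n), S.card = 2 → (0 ≤ ∑ i ∈ S, x i ↔ S ⊆ Q)) := by
  classical
  set σ : Equiv.Perm (Fin n) := Tuple.sort (fun i => - x i) with hσ
  have hmono : Monotone ((fun i => - x i) ∘ σ) := Tuple.monotone_sort _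
  set z : Fin n → ℝ := x ∘ σ with hz
  have hza : Antitone z := by
    intro i j hij
    have := hmono hij
    simp only [Function.comp_apply] at this
    simp only [hz, Function.comp_apply]
    linarith
  have hzs : 0 ≤ ∑ i, z i := by
    have : ∑ i, z i = ∑ i, x i := Equiv.sum_comp σ x
    rw [this]; exact hs
  have hzc : s 2 z = n - 1 := by rw [hz, s_perm]; exact hc
  have hxz : ∀ i, x i = z (σ.symm i) := by intro i; simp [hz]
  by_cases hneg : ext z 0 + ext z (n - 1) < 0
  · rcases core hn z hzs hza hneg with h | ⟨h7, h3⟩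
    · omega
    · right
      refine ⟨h7, ?_⟩
      subst h7
      refine ⟨((univ : Finset (Fin 7)).filter (fun i => i.val ≤ 3)).map σ.toEmbedding, ?_, ?_⟩
      · rw [Finset.card_map]; decide
      · have hQ : (((univ : Finset (Fin 7)).filter (fun i => i.val ≤ 3)).map σ.toEmbedding).card = 4 := by
          rw [Finset.card_map]; decide
        have hpos : ∀ i ∈ ((univ : Finset (Fin 7)).filter (fun i => i.val ≤ 3)).map σ.toEmbedding,
            0 ≤ x i := by
          intro i hi
          rw [Finset.mem_map] at hi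
          obtain ⟨j, hj, rfl⟩ := hi
          simp only [Finset.mem_filter, Finset.mem_univ, true_and] at hj
          have e1 : x (σ.toEmbedding j) = z j := by simp [hz]
          rw [e1]
          have h4 : ext z 3 = z ⟨3, by norm_num⟩ := ext_eq z (by norm_num)
          rw [h4] at h3
          have h5 : z ⟨3, by norm_num⟩ ≤ z j := hza (by rw [Fin.le_def]; exact hj)
          linarith
        have key := eq_of_card x
          ((((univ : Finset (Fin 7)).filter (fun i => i.val ≤ 3)).map σ.toEmbedding).powersetCard 2)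
          (by
            intro S hS
            rw [Finset.mem_powersetCard] at hS
            exact ⟨hS.2, Finset.sum_nonneg (fun i hi => hpos i (hS.1 hi))⟩)
          (by rw [Finset.card_powersetCard, hQ, hc]; decide)
        intro S hS
        rw [key S hS, Finset.mem_powersetCard]
        exact ⟨fun h => h.1, fun h => ⟨h, hS⟩⟩
  · left
    push Not at hneg
    rw [ext_eq z (show 0 < n by omega), ext_eq z (show n - 1 < n by omega)] at hneg
    refine ⟨σ ⟨0, by omega⟩, ?_⟩
    set p : Fin n := σ ⟨0, by omega⟩ with hp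
    have hxp : x p = z ⟨0, by omega⟩ := by simp [hz, hp]
    have hpj : ∀ j, 0 ≤ x p + x j := by
      intro j
      rw [hxp, hxz j]
      have : z ⟨n - 1, by omega⟩ ≤ z (σ.symm j) :=
        hza (by rw [Fin.le_def]; have := (σ.symm j).isLt; simp only; omega)
      linarith
    have hcard : ((univ.erase p).image (fun j => ({p, j} : Finset (Fin n)))).card = n - 1 := by
      rw [Finset.card_image_of_injOn, Finset.card_erase_of_mem (Finset.mem_univ _), Finset.card_univ,
        Fintype.card_fin]
      intro j hj j' hj' h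
      simp only [Finset.coe_erase, Finset.coe_univ, Set.mem_sdiff, Set.mem_univ,
        Set.mem_singleton_iff, true_and] at hj hj'
      have h1 : j ∈ ({p, j} : Finset (Fin n)) := by simp
      simp only at h
      rw [h] at h1
      simp only [Finset.mem_insert, Finset.mem_singleton] at h1
      rcases h1 with h1 | h1
      · exact absurd h1 hj
      · exact h1
    have key := eq_of_card x ((univ.erase p).image (fun j => ({p, j} : Finset (Fin n))))
      (by
        intro S hS
        rw [Finset.mem_image] at hS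
        obtain ⟨j, hj, rfl⟩ := hS
        have hne : p ≠ j := (Finset.ne_of_mem_erase hj).symm
        exact ⟨Finset.card_pair hne, by rw [Finset.sum_pair hne]; exact hpj j⟩)
      (by rw [hcard]; exact hc)
    intro S hS
    rw [key S hS]
    constructor
    · intro h
      rw [Finset.mem_image] at h
      obtain ⟨j, _, rfl⟩ := h
      simp
    · intro h
      obtain ⟨a, b, hab, rfl⟩ := Finset.card_eq_two.mp hS
      simp only [Finset.mem_insert, Finset.mem_singleton] at h
      rw [Finset.mem_image]
      rcases h with h | h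
      · exact ⟨b, Finset.mem_erase.mpr ⟨fun e => hab (by rw [← h, e]), Finset.mem_univ _⟩, by rw [h]⟩
      · exact ⟨a, Finset.mem_erase.mpr ⟨fun e => hab (by rw [← h, e]), Finset.mem_univ _⟩, by
          rw [h]; exact Finset.pair_comm _ _⟩

/-- **The case `k = 2` completely, and the negative answer to the question.**
(1) `f 2 = 6`. (2) For every `n ≥ f 2` the uniqueness statement for `(2, n)` holds if and only if
`n ≠ 7`. (3) For every `n ≥ f 2` and every `x` of length `n` with nonnegative sum and exactly `n - 1`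
nonnegative pair sums (no monotonicity), the nonnegative pairs are exactly the pairs containing a
certain coordinate `p`, or `n = 7` and they are exactly the pairs inside a certain set `Q` of four
coordinates. (4) The second case of (3) occurs, with a nonincreasing vector. (5) Hence the statement
of the question, for all `k ≥ 2` and `n ≥ f k`, is false. -/
theorem result :
    f 2 = 6 ∧
    (∀ n : ℕ, f 2 ≤ n → (Uniq 2 n ↔ n ≠ 7)) ∧
    (∀ n : ℕ, f 2 ≤ n → ∀ x : Fin n → ℝ, 0 ≤ ∑ i, x i → s 2 x = n - 1 →
      (∃ p : Fin n, ∀ S : Finset (Fin n), S.card = 2 → (0 ≤ ∑ i ∈ S, x i ↔ p ∈ S)) ∨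
      (n = 7 ∧ ∃ Q : Finset (Fin n), Q.card = 4 ∧
        ∀ S : Finset (Fin n), S.card = 2 → (0 ≤ ∑ i ∈ S, x i ↔ S ⊆ Q))) ∧
    (∃ x : Fin 7 → ℝ, 0 ≤ ∑ i, x i ∧ Antitone x ∧ s 2 x = 6 ∧
      ∀ S : Finset (Fin 7), S.card = 2 → (0 ≤ ∑ i ∈ S, x i ↔ S ⊆ {0, 1, 2, 3})) ∧
    ¬ (∀ k n : ℕ, 2 ≤ k → f k ≤ n → Uniq k n) := by
  refine ⟨f_two, ?_, ?_, ?_, ?_⟩
  · intro n hn
    rw [f_two] at hn
    constructor
    · rintro h rfl
      exact not_uniq_seven h
    · exact uniq_of_ne hn
  · intro n hn x hs hc
    rw [f_two] at hn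
    exact classify hn x hs hc
  · refine ⟨fun i => (yz i : ℝ), ?_, ?_, s_yz, ?_⟩
    · rw [← Int.cast_sum]
      have : (0 : ℤ) ≤ ∑ i, yz i := by decide
      exact_mod_cast this
    · have : ∀ i j : Fin 7, i ≤ j → yz j ≤ yz i := by decide
      intro i j hij
      simp only
      exact_mod_cast this i j hij
    · intro S hS
      simp only
      rw [← Int.cast_sum]
      have h : ∀ S : Finset (Fin 7), S.card = 2 → ((0 : ℤ) ≤ ∑ i ∈ S, yz i ↔ S ⊆ {0, 1, 2, 3}) := by
        decide +kernel
      rw [← h S hS]
      exact_mod_cast Iff.rfl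
  · intro h
    exact not_uniq_seven (h 2 7 le_rfl (by rw [f_two]; norm_num))

end Pool.Agent.Results.MP_b5758b_co.PairsClassified
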